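import Pool.Agent.Helper867_Rae.Base2
import Pool.Agent.Helper867_Rae.Stmts

set_option autoImplicit false

/-! Lemma B, section form, from the module form. -/

namespace Pool.Agent.Helper210_Rae

open Pool.Agent.TH62.PL Pool.Agent.Helper867_Rae

section
variable {X : Type} [Group X]

theorem sec_normal {M N : Subgroup X} (hNM : N ≤ M)
    (hab : ∀ x ∈ M, ∀ y ∈ M, x * y * x⁻¹ * y⁻¹ ∈ N) : (N.subgroupOf M).Normal := by
  refine ⟨fun n hn g => ?_⟩
  rw [Subgroup.mem_subgroupOf] at hn ⊢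
  have h1 := hab g g.2 n (hNM hn)
  have e : ((g * n * g⁻¹ : M) : X) = ((g : X) * n * (g : X)⁻¹ * (n : X)⁻¹) * n := by
    push_cast; group
  rw [e]
  exact N.mul_mem h1 hn

/-- the section `M/N` as an abelian group -/
@[reducible] def secGroup (M N : Subgroup X) [(N.subgroupOf M).Normal]
    (hab : ∀ x ∈ M, ∀ y ∈ M, x * y * x⁻¹ * y⁻¹ ∈ N) : CommGroup (M ⧸ N.subgroupOf M) where
  mul_comm a b := by
    obtain ⟨a, rfl⟩ := QuotientGroup.mk_surjective a
    obtain ⟨b, rfl⟩ := QuotientGroup.mk_surjective b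
    rw [← QuotientGroup.mk_mul, ← QuotientGroup.mk_mul, QuotientGroup.eq, Subgroup.mem_subgroupOf]
    have h1 := hab ((b : X)⁻¹) (M.inv_mem b.2) ((a : X)⁻¹) (M.inv_mem a.2)
    have e : (((a * b)⁻¹ * (b * a) : M) : X) =
        (b : X)⁻¹ * (a : X)⁻¹ * ((b : X)⁻¹)⁻¹ * ((a : X)⁻¹)⁻¹ := by
      push_cast; group
    rw [e]; exact h1

/-- conjugation -/
def conjHom {Y M : Subgroup X} (h : Inv Y M) (y : Y) : M →* M where
  toFun m := ⟨y * m * (y : X)⁻¹, h y y.2 m m.2⟩
  map_one' := Subtype.ext (by simp)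
  map_mul' a b := Subtype.ext (by simp [mul_assoc])

theorem conj_le {Y M N : Subgroup X} (hM : Inv Y M) (hN : Inv Y N) (y : Y) :
    N.subgroupOf M ≤ (N.subgroupOf M).comap (conjHom hM y) := by
  intro x hx
  rw [Subgroup.mem_comap, Subgroup.mem_subgroupOf]
  exact hN y y.2 x hx

/-- the action of `Y` on the section `M/N` -/
@[reducible] def secAct {Y M N : Subgroup X} [(N.subgroupOf M).Normal]
    (hab : ∀ x ∈ M, ∀ y ∈ M, x * y * x⁻¹ * y⁻¹ ∈ N) (hM : Inv Y M) (hN : Inv Y N) :
    letI := secGroup M N hab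
    DistribMulAction Y (Additive (M ⧸ N.subgroupOf M)) :=
  letI := secGroup M N hab
  { smul := fun y v => Additive.ofMul
      (QuotientGroup.map (N.subgroupOf M) (N.subgroupOf M) (conjHom hM y) (conj_le hM hN y) v.toMul)
    one_smul := by
      intro v
      obtain ⟨v, rfl⟩ := Additive.ofMul.surjective v
      obtain ⟨v, rfl⟩ := QuotientGroup.mk_surjective v
      change Additive.ofMul ((conjHom hM 1 v : M) : M ⧸ N.subgroupOf M) = _
      congr 2
      apply Subtype.ext
      simp [conjHom]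
    mul_smul := by
      intro x y v
      obtain ⟨v, rfl⟩ := Additive.ofMul.surjective v
      obtain ⟨v, rfl⟩ := QuotientGroup.mk_surjective v
      change Additive.ofMul ((conjHom hM (x * y) v : M) : M ⧸ N.subgroupOf M) =
        Additive.ofMul ((conjHom hM x (conjHom hM y v) : M) : M ⧸ N.subgroupOf M)
      congr 2
      apply Subtype.ext
      simp [conjHom, mul_assoc]
    smul_zero := by
      intro y
      change Additive.ofMul (QuotientGroup.map (N.subgroupOf M) (N.subgroupOf M) (conjHom hM y)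
        (conj_le hM hN y) 1) = _
      rw [map_one]; rfl
    smul_add := by
      intro y a b
      change Additive.ofMul (QuotientGroup.map (N.subgroupOf M) (N.subgroupOf M) (conjHom hM y)
        (conj_le hM hN y) (a.toMul * b.toMul)) = _
      rw [map_mul]; rfl }

end

theorem b (hBm : S_Bm) : S_B := by
  intro p c hp
  obtain ⟨b, hb⟩ := hBm p c
  refine ⟨b, ?_⟩
  intro X _ _ hX r H M N hr hNM hHM hHN hab hpow Y hY W hW
  have hYH : Y ≤ H := by
    rw [hY, Subgroup.closure_le]
    exact fun y hy => hy.1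
  have hYM : Inv Y M := hHM.mono hYH
  have hYN : Inv Y N := hHN.mono hYH
  have hn : (N.subgroupOf M).Normal := sec_normal hNM hab
  let _ := secGroup M N hab
  let _ := secAct hab hYM hYN
  have hact : ∀ (y : Y) (m : M), y • (Additive.ofMul (m : M ⧸ N.subgroupOf M)) =
      Additive.ofMul ((conjHom hYM y m : M) : M ⧸ N.subgroupOf M) := fun _ _ => rfl
  have hfin : Finite (M ⧸ N.subgroupOf M) := inferInstance
  have hfin2 : Finite (Additive (M ⧸ N.subgroupOf M)) := hfin
  have hkey : ∀ (y : Y) (m : M), y • (Additive.ofMul (m : M ⧸ N.subgroupOf M)) =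
      Additive.ofMul (m : M ⧸ N.subgroupOf M) ↔ (y : X) * m * (y : X)⁻¹ * (m : X)⁻¹ ∈ N := by
    intro y m
    rw [hact, Additive.ofMul.injective.eq_iff, eq_comm, QuotientGroup.eq, Subgroup.mem_subgroupOf]
    have e : ((m⁻¹ * conjHom hYM y m : M) : X) = (m : X)⁻¹ * ((y : X) * m * (y : X)⁻¹) := rfl
    rw [e]
    have h1 : (m : X)⁻¹ * ((y : X) * m * (y : X)⁻¹) =
        (m : X)⁻¹ * ((y : X) * m * (y : X)⁻¹ * (m : X)⁻¹) * m := by group
    constructor
    · intro h
      have h2 := hn.conj_mem ⟨_, hNM h⟩ h m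
      rw [Subgroup.mem_subgroupOf] at h2
      have e2 : ((m * ⟨(m : X)⁻¹ * ((y : X) * m * (y : X)⁻¹), hNM h⟩ * m⁻¹ : M) : X) =
          (y : X) * m * (y : X)⁻¹ * (m : X)⁻¹ := by
        push_cast; group
      rwa [e2] at h2
    · intro h
      have h2 := hn.conj_mem ⟨_, hNM h⟩ h m⁻¹
      rw [Subgroup.mem_subgroupOf] at h2
      have e2 : ((m⁻¹ * ⟨(y : X) * m * (y : X)⁻¹ * (m : X)⁻¹, hNM h⟩ * m⁻¹⁻¹ : M) : X) =
          (m : X)⁻¹ * ((y : X) * m * (y : X)⁻¹) := by
        push_cast; group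
      rwa [e2] at h2
  refine hb r Y (Additive (M ⧸ N.subgroupOf M)) hr inferInstance ?_ ?_ W ?_
  · intro v
    obtain ⟨v, rfl⟩ := Additive.ofMul.surjective v
    obtain ⟨v, rfl⟩ := QuotientGroup.mk_surjective v
    rw [← ofMul_pow, ← QuotientGroup.mk_pow, ← ofMul_one]
    congr 1
    rw [QuotientGroup.eq_one_iff, Subgroup.mem_subgroupOf]
    exact hpow v v.2
  · subst hY
    rw [eq_top_iff, ← Subgroup.closure_closure_coe_preimage (k := {y : X | y ∈ H ∧ Sm M N y c})]
    refine Subgroup.closure_mono ?_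
    rintro y ⟨_, C, hCM, hC1, hC2⟩
    refine ⟨Subgroup.toAddSubgroup ((C.subgroupOf M).map (QuotientGroup.mk' (N.subgroupOf M))),
      ?_, ?_⟩
    · rintro v ⟨m, hm, hm'⟩
      have e : v = Additive.ofMul (m : M ⧸ N.subgroupOf M) := hm'.symm
      rw [e, hkey]
      exact hC1 m hm
    · have h1 : (Subgroup.toAddSubgroup
          ((C.subgroupOf M).map (QuotientGroup.mk' (N.subgroupOf M)))).index =
          ((C.subgroupOf M).map (QuotientGroup.mk' (N.subgroupOf M))).index := rfl
      rw [h1]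
      refine le_trans (Nat.le_of_dvd ?_ (Subgroup.index_map_dvd _
        (QuotientGroup.mk'_surjective _))) hC2
      exact Nat.pos_of_ne_zero Subgroup.index_ne_zero_of_finite
  · intro y hy
    apply hW
    intro m hm
    exact (hkey y ⟨m, hm⟩).1 (hy _)

end Pool.Agent.Helper210_Rae
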