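import Pool.Agent.Helper867_Rae.Base2
import Pool.Agent.Helper867_Rae.Stmts

set_option autoImplicit false

/-! Lemma B, module form, from the irreducible case. -/

namespace Pool.Agent.Helper210_Rae

open Pool.Agent.TH62.PL Pool.Agent.Helper867_Rae

section act
variable {Y F : Type} [Group Y] [AddCommGroup F] [DistribMulAction Y F]

/-- the action of the image of `Y` in the group of permutations -/
@[reducible] def permAct (Y F : Type) [Group Y] [AddCommGroup F] [DistribMulAction Y F] :
    DistribMulAction (MulAction.toPermHom Y F).range F where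
  smul y w := (y : Equiv.Perm F) w
  one_smul _ := rfl
  mul_smul _ _ _ := rfl
  smul_zero y := by obtain ⟨_, g, rfl⟩ := y; exact smul_zero g
  smul_add y a b := by obtain ⟨_, g, rfl⟩ := y; exact smul_add g a b

/-- the action on an invariant subgroup -/
@[reducible] def subAct (W : AddSubgroup F) (h : ∀ y : Y, ∀ w ∈ W, y • w ∈ W) :
    DistribMulAction Y W where
  smul y w := ⟨y • (w : F), h y w w.2⟩
  one_smul w := Subtype.ext (one_smul Y (w : F))
  mul_smul x y w := Subtype.ext (mul_smul x y (w : F))
  smul_zero y := Subtype.ext (smul_zero y)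
  smul_add y a b := Subtype.ext (smul_add y (a : F) (b : F))

/-- the action on the quotient by an invariant subgroup -/
@[reducible] def quotAct (W : AddSubgroup F) (h : ∀ y : Y, ∀ w ∈ W, y • w ∈ W) :
    DistribMulAction Y (F ⧸ W) where
  smul y := QuotientAddGroup.map W W (DistribMulAction.toAddMonoidHom F y) (fun w hw => h y w hw)
  one_smul v := by
    obtain ⟨v, rfl⟩ := QuotientAddGroup.mk_surjective v
    change (((1 : Y) • v : F) : F ⧸ W) = _
    rw [one_smul]
  mul_smul x y v := by
    obtain ⟨v, rfl⟩ := QuotientAddGroup.mk_surjective v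
    change ((((x * y) : Y) • v : F) : F ⧸ W) = ((x • (y • v) : F) : F ⧸ W)
    rw [mul_smul]
  smul_zero y := map_zero _
  smul_add y a b := map_add _ a b

end act

/-- the irreducible case gives a bound for the kernel of the action on an irreducible submodule -/
theorem irr {p β c : ℕ} [Fact p.Prime]
    (hβ : ∀ (Y F : Type) [Group Y] [Finite Y] [AddCommGroup F] [Finite F]
      [DistribMulAction Y F], Group.IsSolvable Y →
      (∀ y : Y, (∀ v : F, y • v = v) → y = 1) →
      (∀ W : AddSubgroup F, (∀ (y : Y), ∀ w ∈ W, y • w ∈ W) → W = ⊥ ∨ W = ⊤) →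
      Subgroup.closure {y : Y | ∃ C : AddSubgroup F, (∀ v ∈ C, y • v = v) ∧ C.index ≤ c} = ⊤ →
      Nontrivial Y → Nat.card F ≤ β)
    (Y F : Type) [Group Y] [Finite Y] [AddCommGroup F] [Finite F] [DistribMulAction Y F]
    (hY : Group.IsSolvable Y)
    (hirr : ∀ W : AddSubgroup F, (∀ (y : Y), ∀ w ∈ W, y • w ∈ W) → W = ⊥ ∨ W = ⊤)
    (hgen : Subgroup.closure {y : Y | ∃ C : AddSubgroup F, (∀ v ∈ C, y • v = v) ∧ C.index ≤ c} = ⊤) :
    Len {p} β.factorial (MulAction.toPermHom Y F).ker := by
  classical
  let f := MulAction.toPermHom Y F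
  let _ := permAct Y F
  have hfin : Finite f.range := Finite.of_surjective f.rangeRestrict f.rangeRestrict_surjective
  have hsol : Group.IsSolvable f.range :=
    Group.isSolvable_of_surjective f.rangeRestrict_surjective
  have hker : f.ker = (⊥ : Subgroup f.range).comap f.rangeRestrict := by
    rw [MonoidHom.comap_bot, MonoidHom.ker_rangeRestrict]
  rcases subsingleton_or_nontrivial f.range with hs | hnt
  · have : f.ker = ⊤ := by
      rw [hker, eq_top_iff]
      intro x _
      rw [Subgroup.mem_comap, Subgroup.mem_bot]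
      exact Subsingleton.elim _ _
    change Len {p} β.factorial f.ker
    rw [this]
    exact Len.top _
  · have hcard : Nat.card F ≤ β := by
      refine hβ f.range F hsol ?_ ?_ ?_ hnt
      · intro y hy
        apply Subtype.ext
        apply Equiv.ext
        intro v
        exact hy v
      · intro W hW
        refine hirr W fun y w hw => ?_
        exact hW ⟨f y, y, rfl⟩ w hw
      · rw [eq_top_iff]
        rintro ⟨_, g, rfl⟩ _
        have hg : g ∈ Subgroup.closure
            {y : Y | ∃ C : AddSubgroup F, (∀ v ∈ C, y • v = v) ∧ C.index ≤ c} := by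
          rw [hgen]; trivial
        have h1 := Subgroup.mem_map_of_mem f.rangeRestrict hg
        rw [MonoidHom.map_closure] at h1
        refine Subgroup.closure_mono ?_ h1
        rintro _ ⟨y, ⟨C, hC1, hC2⟩, rfl⟩
        exact ⟨C, hC1, hC2⟩
    have hcard2 : Nat.card f.range ≤ β.factorial := by
      have h1 : Nat.card f.range ≤ Nat.card (Equiv.Perm F) :=
        Nat.card_le_card_of_injective (fun x => (x : Equiv.Perm F)) Subtype.val_injective
      refine h1.trans ?_
      rw [Nat.card_perm]
      exact Nat.factorial_le hcard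
    have h2 := (LM.of_solvable (p := p) β.factorial f.range hsol hcard2).comap f.rangeRestrict
    rw [← hker] at h2
    exact h2.len inferInstance

theorem bm_aux {p β c r : ℕ} [Fact p.Prime]
    (hβ : ∀ (Y F : Type) [Group Y] [Finite Y] [AddCommGroup F] [Finite F]
      [DistribMulAction Y F], Group.IsSolvable Y →
      (∀ y : Y, (∀ v : F, y • v = v) → y = 1) →
      (∀ W : AddSubgroup F, (∀ (y : Y), ∀ w ∈ W, y • w ∈ W) → W = ⊥ ∨ W = ⊤) →
      Subgroup.closure {y : Y | ∃ C : AddSubgroup F, (∀ v ∈ C, y • v = v) ∧ C.index ≤ c} = ⊤ →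
      Nontrivial Y → Nat.card F ≤ β)
    (Y : Type) [Group Y] [Finite Y] (hY : Group.IsSolvable Y) (n : ℕ) :
    ∀ (F : Type) [AddCommGroup F] [Finite F] [DistribMulAction Y F], Nat.card F ≤ n →
    (∀ v : F, r • v = 0) →
    Subgroup.closure {y : Y | ∃ C : AddSubgroup F, (∀ v ∈ C, y • v = v) ∧ C.index ≤ c} = ⊤ →
    ∃ U : Subgroup Y, U.Normal ∧ Len {p} β.factorial U ∧
      ∀ u ∈ U, ∃ k : ℕ, ∀ v : F, (u ^ r ^ k) • v = v := by
  classical
  induction n with
  | zero => intro F _ _ _ h; have := Nat.card_pos (α := F); omega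
  | succ n ih =>
    intro F _ _ _ hn hr hgen
    rcases subsingleton_or_nontrivial F with hs | hnt
    · exact ⟨⊤, inferInstance, Len.top _, fun u _ => ⟨0, fun v => Subsingleton.elim _ _⟩⟩
    -- a minimal invariant subgroup
    obtain ⟨W, hW⟩ := Set.Finite.exists_minimal
      (Set.toFinite {W : AddSubgroup F | (∀ y : Y, ∀ w ∈ W, y • w ∈ W) ∧ W ≠ ⊥})
      ⟨⊤, fun _ _ _ => trivial, top_ne_bot⟩
    have hinv := hW.1.1
    have hne := hW.1.2
    let i1 := subAct W hinv
    let i2 := quotAct W hinv
    have hq : ∀ (y : Y) (v : F), y • (v : F ⧸ W) = ((y • v : F) : F ⧸ W) := fun _ _ => rfl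
    have hsub : ∀ (y : Y) (w : W), ((y • w : W) : F) = y • (w : F) := fun _ _ => rfl
    have hcardq : Nat.card (F ⧸ W) ≤ n := by
      have h1 := W.card_eq_card_quotient_mul_card_addSubgroup
      have h2 : 2 ≤ Nat.card W := by
        have h3 : Nat.card W ≠ 1 := fun h => hne (AddSubgroup.card_eq_one.1 h)
        have h4 : 0 < Nat.card W := Nat.card_pos
        omega
      have h5 : 0 < Nat.card (F ⧸ W) := Nat.card_pos
      nlinarith
    obtain ⟨U, hU, hUl, hUu⟩ := ih (F ⧸ W) hcardq
      (by
        intro v
        obtain ⟨v, rfl⟩ := QuotientAddGroup.mk_surjective v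
        rw [← QuotientAddGroup.mk_nsmul, hr]; rfl)
      (by
        rw [eq_top_iff, ← hgen]
        refine Subgroup.closure_mono ?_
        rintro y ⟨C, hC1, hC2⟩
        refine ⟨C.map (QuotientAddGroup.mk' W), ?_, ?_⟩
        · rintro _ ⟨v, hv, rfl⟩
          change y • (v : F ⧸ W) = (v : F ⧸ W)
          rw [hq, hC1 v hv]
        · refine le_trans (Nat.le_of_dvd ?_ (AddSubgroup.index_map_dvd _
            (QuotientAddGroup.mk'_surjective W))) hC2
          exact Nat.pos_of_ne_zero AddSubgroup.index_ne_zero_of_finite)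
    have hK := irr (p := p) hβ Y W hY
      (by
        intro W' hW'
        by_cases h0 : W'.map W.subtype = ⊥
        · left
          rw [eq_bot_iff]
          intro x hx
          have h1 : (x : F) ∈ W'.map W.subtype := ⟨x, hx, rfl⟩
          rw [h0, AddSubgroup.mem_bot] at h1
          rw [AddSubgroup.mem_bot]
          exact Subtype.ext h1
        · right
          have h1 : W ≤ W'.map W.subtype := by
            refine hW.2 ⟨?_, h0⟩ ?_
            · rintro y _ ⟨w, hw, rfl⟩
              exact ⟨y • w, hW' y w hw, rfl⟩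
            · rintro _ ⟨w, _, rfl⟩
              exact w.2
          rw [eq_top_iff]
          intro x _
          obtain ⟨w, hw, hw'⟩ := h1 x.2
          have h2 : w = x := Subtype.ext hw'
          rw [← h2]; exact hw)
      (by
        rw [eq_top_iff, ← hgen]
        refine Subgroup.closure_mono ?_
        rintro y ⟨C, hC1, hC2⟩
        refine ⟨C.addSubgroupOf W, ?_, ?_⟩
        · rintro v hv
          exact Subtype.ext (hC1 v hv)
        · refine le_trans (Nat.le_of_dvd ?_ (AddSubgroup.relIndex_dvd_index_of_normal C W)) hC2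
          exact Nat.pos_of_ne_zero AddSubgroup.index_ne_zero_of_finite)
    refine ⟨U ⊓ (MulAction.toPermHom Y W).ker, Subgroup.normal_inf_normal _ _, hUl.inf hK, ?_⟩
    rintro u ⟨hu1, hu2⟩
    obtain ⟨k, hk⟩ := hUu u hu1
    refine ⟨k + 1, fun v => ?_⟩
    set x := u ^ r ^ k with hx
    have hxW : ∀ w ∈ W, x • w = w := by
      intro w hw
      have h1 : x ∈ (MulAction.toPermHom Y W).ker := Subgroup.pow_mem _ hu2 _
      rw [MonoidHom.mem_ker] at h1
      have h2 := congrArg (fun e : Equiv.Perm W => e ⟨w, hw⟩) h1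
      exact congrArg Subtype.val h2
    have hxq : x • v - v ∈ W := by
      have h1 := hk (v : F ⧸ W)
      rw [hq] at h1
      rw [← QuotientAddGroup.eq_zero_iff]
      rw [QuotientAddGroup.mk_sub, h1, sub_self]
    have hpow : ∀ j : ℕ, (x ^ j) • v = v + j • (x • v - v) := by
      intro j
      induction j with
      | zero => simp
      | succ j ihj =>
        rw [pow_succ', mul_smul, ihj, smul_add, add_smul, one_smul]
        have h1 : x • (j • (x • v - v)) = j • (x • v - v) :=
          hxW _ (AddSubgroup.nsmul_mem W hxq j)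
        rw [h1]
        abel
    rw [pow_succ, pow_mul, hpow r, hr, add_zero]

theorem bm (h0 : S_B0) : S_Bm := by
  intro p c hp
  obtain ⟨β, hβ⟩ := h0 c
  refine ⟨β.factorial + 1, ?_⟩
  intro r Y F _ _ _ _ _ hr hY hrF hgen W hW
  obtain ⟨U, hU, hlen, hu⟩ := bm_aux (p := p) (r := r) hβ Y hY (Nat.card F) F le_rfl hrF hgen
  have hK : ∀ y : Y, y ∈ (MulAction.toPermHom Y F).ker ↔ ∀ v : F, y • v = v := by
    intro y
    rw [MonoidHom.mem_ker]
    constructor
    · intro h v
      exact congrArg (fun e : Equiv.Perm F => e v) h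
    · intro h
      apply Equiv.ext
      exact h
  have hPF : PF {r} (MulAction.toPermHom Y F).ker (U ⊔ (MulAction.toPermHom Y F).ker) := by
    have h1 : PF {r} (MulAction.toPermHom Y F).ker U := by
      intro x hx
      obtain ⟨k, hk⟩ := hu x hx
      exact ⟨r ^ k, PN.prime_pow hr k, (hK _).2 hk⟩
    have h2 := h1.supN (T := (MulAction.toPermHom Y F).ker) inferInstance
    rwa [sup_idem] at h2
  have hlen2 : Len {p} β.factorial (U ⊔ (MulAction.toPermHom Y F).ker) :=
    hlen.mono (Subgroup.sup_normal _ _) le_sup_left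
  refine LM.mono (N := (MulAction.toPermHom Y F).ker) (LM.of_Len inferInstance ?_)
    (fun y hy => hW y ((hK y).1 hy))
  by_cases hrp : r = p
  · subst hrp
    exact Len.step inferInstance (Subgroup.sup_normal _ _) le_sup_right hPF hlen2
  · refine (hlen2.absorb le_sup_right (hPF.set_mono ?_)).succ
    intro x hx
    rw [Set.mem_singleton_iff] at hx
    subst hx
    exact hrp

end Pool.Agent.Helper210_Rae
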