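import Pool.Agent.Helper867_Rae.Stmts2

set_option autoImplicit false

/-! (8h): a locally finite group with a self-centralising Chernikov normal 2-subgroup is finite over it. -/

namespace Pool.Agent.Helper210_Rae

open Pool.Agent.TH62.PL Pool.Agent.Helper867_Rae

/-- least subgroup of finite index -/
theorem leastFI {T : Type} [Group T]
    (hdcc : ∀ H : ℕ → Subgroup T, Antitone H → ∃ n, ∀ m ≥ n, H m = H n) :
    ∃ K : Subgroup T, K.FiniteIndex ∧ ∀ L : Subgroup T, L.FiniteIndex → K ≤ L := by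
  have hwf : WellFoundedGT (Subgroup T)ᵒᵈ := by
    rw [wellFoundedGT_iff_monotone_chain_condition]
    intro a
    obtain ⟨n, hn⟩ := hdcc (fun i => OrderDual.ofDual (a i)) (fun i j hij => a.monotone hij)
    exact ⟨n, fun m hm => (hn m hm).symm⟩
  have hwf2 : WellFounded ((· < ·) : Subgroup T → Subgroup T → Prop) := hwf.wf
  obtain ⟨K, hK, hmin⟩ := hwf2.has_min {K : Subgroup T | K.FiniteIndex} ⟨⊤, by
    show (⊤ : Subgroup T).FiniteIndex
    infer_instance⟩
  have hK' : K.FiniteIndex := hK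
  refine ⟨K, hK, fun L hL => ?_⟩
  by_contra hne
  exact hmin (K ⊓ L) (show (K ⊓ L).FiniteIndex from inferInstance)
    (lt_of_le_of_ne inf_le_left (fun h => hne (inf_eq_left.1 h)))

theorem F1mul (h : S_F1) (K : Type) [Group K] (hc : ∀ a b : K, a * b = b * a)
    (h2 : ∀ a : K, ∃ k : ℕ, a ^ 2 ^ k = 1) (hf : {a : K | a * a = 1}.Finite) :
    ∃ N : ℕ, {a : K | a ^ 2 ^ N = 1}.Finite ∧
      ∀ g : K ≃* K, (∃ m : ℕ, 0 < m ∧ ∀ a, (g^[m]) a = a) →
        (∀ a, a ^ 2 ^ N = 1 → g a = a) → ∀ a, g a = a := by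
  letI cg : CommGroup K := { (inferInstance : Group K) with mul_comm := hc }
  have hf' : Finite {a : Additive K // 2 • a = 0} := by
    have : {a : Additive K | 2 • a = 0}.Finite := by
      refine (hf.image (Additive.ofMul : K → Additive K)).subset ?_
      intro a ha
      refine ⟨a.toMul, ?_, rfl⟩
      have h1 : a.toMul ^ 2 = 1 := ha
      show a.toMul * a.toMul = 1
      rw [← sq]; exact h1
    exact this.to_subtype
  obtain ⟨N, h1, h3⟩ := h (Additive K) (fun a => h2 a.toMul) hf'
  refine ⟨N, ?_, ?_⟩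
  · have h4 : {a : Additive K | 2 ^ N • a = 0}.Finite := Set.finite_coe_iff.1 h1
    refine (h4.image (Additive.toMul : Additive K → K)).subset ?_
    intro a ha
    exact ⟨Additive.ofMul a, ha, rfl⟩
  · intro g ⟨m, hm, hg⟩ hfix a
    exact h3 (MulEquiv.toAdditive g) ⟨m, hm, fun a => hg a.toMul⟩ (fun a ha => hfix a.toMul ha)
      (Additive.ofMul a)

theorem odd_two {G : Type} [Group G] {x : G} {m k : ℕ} (hm : Odd m) (h1 : x ^ m = 1)
    (h2 : x ^ 2 ^ k = 1) : x = 1 := by
  have h3 : orderOf x ∣ m := orderOf_dvd_of_pow_eq_one h1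
  have h4 : orderOf x ∣ 2 ^ k := orderOf_dvd_of_pow_eq_one h2
  have h5 : Nat.Coprime m (2 ^ k) := Nat.Coprime.pow_right _ (Nat.coprime_two_right.2 hm)
  have h6 : orderOf x ∣ 1 := by
    rw [← h5]
    exact Nat.dvd_gcd h3 h4
  rw [← orderOf_eq_one_iff]
  exact Nat.dvd_one.1 h6

theorem fin_of_map {Y : Type} [Group Y] {D : Subgroup Y} {H : Subgroup D}
    (h : Finite (H.map D.subtype)) : Finite H := by
  have h1 : ((H.map D.subtype : Subgroup Y) : Set Y).Finite := Set.finite_coe_iff.1 h
  have h2 : (H : Set D).Finite :=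
    Set.Finite.of_finite_image (f := (Subtype.val : D → Y)) h1 (Subtype.val_injective.injOn)
  exact h2.to_subtype

theorem LF.sub {Y : Type} [Group Y] (h : LF Y) (D : Subgroup Y) : LF D := by
  intro H hH
  have : Finite (H.map D.subtype) := h _ (by
    classical
    obtain ⟨S, hS⟩ := hH
    refine ⟨S.image D.subtype, ?_⟩
    rw [← hS, MonoidHom.map_closure, Finset.coe_image])
  exact fin_of_map this

theorem LF.order {Y : Type} [Group Y] (h : LF Y) (y : Y) : IsOfFinOrder y := by
  have : Finite (Subgroup.zpowers y) := h _ (by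
    rw [Subgroup.zpowers_eq_closure]
    exact ⟨{y}, by simp⟩)
  exact finite_zpowers.1 (Set.finite_coe_iff.1 this)

theorem fin (hF1 : S_F1) (hch : S_ch) : S_fin := by
  intro Y _ hY D hD hD2 hmax hcent hE
  classical
  have := hD
  -- apply S_ch to D
  have hDE : ∀ E : Subgroup D, (∀ x ∈ E, x * x = 1) → Finite E := by
    intro E hE1
    have : Finite (E.map D.subtype) := hE _ (by
      rintro _ ⟨x, hx, rfl⟩
      exact x.2) (by
      rintro _ ⟨x, hx, rfl⟩
      have := congrArg (D.subtype) (hE1 x hx)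
      simpa using this)
    exact fin_of_map this
  have hDtop : IsPGroup 2 (⊤ : Subgroup D) := by
    intro x
    obtain ⟨k, hk⟩ := hD2 x
    exact ⟨k, Subtype.ext (by simpa using hk)⟩
  obtain ⟨⟨A, hAn, hAf, hAc⟩, hdcc⟩ := hch D (LF.sub hY D) hDtop hDE
  obtain ⟨K, hKf, hKmin⟩ := leastFI hdcc
  have := hKf
  have hKA : K ≤ A := hKmin A hAf
  have hKchar : K.Characteristic := by
    rw [Subgroup.characteristic_iff_le_comap]
    intro φ
    apply hKmin
    refine ⟨?_⟩
    rw [Subgroup.index_comap_of_surjective K (f := φ.toMonoidHom) φ.surjective]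
    exact hKf.index_ne_zero
  let K₁ : Subgroup Y := K.map D.subtype
  have hK₁ : K₁.Normal := by
    show (K.map D.subtype).Normal
    infer_instance
  have hK₁D : K₁ ≤ D := by
    rintro _ ⟨x, hx, rfl⟩
    exact x.2
  have hK₁c : ∀ a b : K₁, a * b = b * a := by
    rintro ⟨_, a, ha, rfl⟩ ⟨_, b, hb, rfl⟩
    have h0 : a * b = b * a := hAc a (hKA ha) b (hKA hb)
    exact Subtype.ext (congrArg D.subtype h0)
  have hK₁2 : ∀ a : K₁, ∃ k : ℕ, a ^ 2 ^ k = 1 := by
    intro a
    obtain ⟨k, hk⟩ := hD2 ⟨a, hK₁D a.2⟩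
    exact ⟨k, Subtype.ext (by simpa using congrArg Subtype.val hk)⟩
  have hK₁f : {a : K₁ | a * a = 1}.Finite := by
    let E : Subgroup Y :=
      { carrier := {x | x ∈ K₁ ∧ x * x = 1}
        one_mem' := ⟨K₁.one_mem, by simp⟩
        mul_mem' := by
          rintro a b ⟨ha, ha2⟩ ⟨hb, hb2⟩
          refine ⟨K₁.mul_mem ha hb, ?_⟩
          have h1 : a * b = b * a := congrArg Subtype.val (hK₁c ⟨a, ha⟩ ⟨b, hb⟩)
          calc a * b * (a * b) = a * (b * a) * b := by group
            _ = a * (a * b) * b := by rw [h1]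
            _ = (a * a) * (b * b) := by group
            _ = 1 := by rw [ha2, hb2, one_mul]
        inv_mem' := by
          rintro a ⟨ha, ha2⟩
          refine ⟨K₁.inv_mem ha, ?_⟩
          rw [← mul_inv_rev, ha2, inv_one] }
    have hEf : Finite E := hE E (fun x hx => hK₁D hx.1) (fun x hx => hx.2)
    have h2 : (E : Set Y).Finite := Set.finite_coe_iff.1 hEf
    refine Set.Finite.of_finite_image (f := (Subtype.val : K₁ → Y)) (h2.subset ?_)
      (Subtype.val_injective.injOn)
    rintro _ ⟨a, ha, rfl⟩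
    exact ⟨a.2, congrArg Subtype.val ha⟩
  obtain ⟨N, hNf, hN⟩ := F1mul hF1 K₁ hK₁c hK₁2 hK₁f
  -- the two actions
  have : Finite {a : K₁ // a ^ 2 ^ N = 1} := hNf.to_subtype
  let act : MulAction Y {a : K₁ // a ^ 2 ^ N = 1} :=
    { smul := fun y a => ⟨MulAut.conjNormal y a.1, by rw [← map_pow, a.2, map_one]⟩
      one_smul := fun a => Subtype.ext (by
        show MulAut.conjNormal (1 : Y) a.1 = a.1
        rw [map_one]; rfl)
      mul_smul := fun x y a => Subtype.ext (by
        show MulAut.conjNormal (x * y) a.1 = MulAut.conjNormal x (MulAut.conjNormal y a.1)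
        rw [map_mul]; rfl) }
  let ψ : Y →* Equiv.Perm {a : K₁ // a ^ 2 ^ N = 1} := MulAction.toPermHom _ _
  let E : Subgroup (Y ⧸ K₁) := D.map (QuotientGroup.mk' K₁)
  have hEn : E.Normal := hD.map _ (QuotientGroup.mk'_surjective K₁)
  have hEf : Finite E := by
    have hle : K ≤ K₁.comap D.subtype := Subgroup.le_comap_map _ _
    have h1 : (Set.range (QuotientGroup.map K K₁ D.subtype hle)).Finite := Set.finite_range _
    have h2 : (E : Set (Y ⧸ K₁)).Finite := by
      refine h1.subset ?_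
      rintro _ ⟨x, hx, rfl⟩
      exact ⟨((⟨x, hx⟩ : D) : D ⧸ K), rfl⟩
    exact h2.to_subtype
  let φ : Y →* MulAut E := MulAut.conjNormal.comp (QuotientGroup.mk' K₁)
  have : Finite (MulAut E) := inferInstance
  have h1 : φ.ker.FiniteIndex := Subgroup.finiteIndex_ker φ
  have h2 : ψ.ker.FiniteIndex := Subgroup.finiteIndex_ker ψ
  have hfi : (φ.ker ⊓ ψ.ker).FiniteIndex := inferInstance
  have hn : (φ.ker ⊓ ψ.ker).Normal := inferInstance
  have h2g : IsPGroup 2 (φ.ker ⊓ ψ.ker : Subgroup Y) := by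
    rintro ⟨y, hy⟩
    have hfo : IsOfFinOrder y := LF.order hY y
    have hpos : 0 < orderOf y := hfo.orderOf_pos
    obtain ⟨a, m, hm, hom⟩ := Nat.exists_eq_two_pow_mul_odd hpos.ne'
    refine ⟨a, Subtype.ext ?_⟩
    show y ^ 2 ^ a = 1
    set z := y ^ 2 ^ a with hz
    have hzm : z ^ m = 1 := by rw [hz, ← pow_mul, ← hom, pow_orderOf_eq_one]
    have hzY : z ∈ φ.ker ⊓ ψ.ker := Subgroup.pow_mem _ hy _
    have hmpos : 0 < m := hm.pos
    -- z centralises K₁
    have hzK : ∀ k : K₁, MulAut.conjNormal z k = k := by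
      apply hN (MulAut.conjNormal z)
      · refine ⟨m, hmpos, fun k => ?_⟩
        have e : ∀ n : ℕ, (MulAut.conjNormal z : K₁ ≃* K₁)^[n] k =
            MulAut.conjNormal (z ^ n) k := by
          intro n
          induction n with
          | zero => simp
          | succ n ih =>
            rw [Function.iterate_succ_apply', ih, pow_succ', map_mul]
            rfl
        rw [e m, hzm, map_one]
        rfl
      · intro k hk
        have h3 : ψ z = 1 := (MonoidHom.mem_ker).1 hzY.2
        have h4 := congrArg (fun f => f ⟨k, hk⟩) h3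
        exact congrArg Subtype.val h4
    have hzc : ∀ c ∈ K₁, z * c * z⁻¹ = c := by
      intro c hc
      have := congrArg Subtype.val (hzK ⟨c, hc⟩)
      simpa [MulAut.conjNormal_apply] using this
    have hzD : ∀ d ∈ D, z * d = d * z := by
      intro d hd
      have h3 : φ z = 1 := (MonoidHom.mem_ker).1 hzY.1
      have h4 : φ z ⟨QuotientGroup.mk' K₁ d, ⟨d, hd, rfl⟩⟩ = ⟨QuotientGroup.mk' K₁ d, ⟨d, hd, rfl⟩⟩ := by
        rw [h3]; rfl
      have h5 := congrArg Subtype.val h4
      have h6 : ((z * d * z⁻¹ : Y) : Y ⧸ K₁) = (d : Y ⧸ K₁) := h5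
      have h7 : d⁻¹ * (z * d * z⁻¹) ∈ K₁ := QuotientGroup.eq.1 h6.symm
      set c := d⁻¹ * (z * d * z⁻¹) with hc
      have h8 : ∀ n : ℕ, z ^ n * d * (z ^ n)⁻¹ = d * c ^ n := by
        intro n
        induction n with
        | zero => simp
        | succ n ih =>
          have e1 : z * c ^ n * z⁻¹ = c ^ n := hzc _ (K₁.pow_mem h7 n)
          calc z ^ (n + 1) * d * (z ^ (n + 1))⁻¹
              = z * (z ^ n * d * (z ^ n)⁻¹) * z⁻¹ := by rw [pow_succ']; group
            _ = z * (d * c ^ n) * z⁻¹ := by rw [ih]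
            _ = (z * d * z⁻¹) * (z * c ^ n * z⁻¹) := by group
            _ = (d * c) * c ^ n := by rw [e1, hc]; group
            _ = d * c ^ (n + 1) := by rw [pow_succ']; group
      have h9 := h8 m
      rw [hzm] at h9
      have h10 : c ^ m = 1 := by
        have : d * 1 = d * c ^ m := by simpa using h9
        exact (mul_left_cancel this).symm
      obtain ⟨k, hk⟩ := hK₁2 ⟨c, h7⟩
      have h11 : c ^ 2 ^ k = 1 := by simpa using congrArg Subtype.val hk
      have h12 : c = 1 := odd_two hm h10 h11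
      have h13 : d = z * d * z⁻¹ := by
        have := h12
        rw [hc, inv_mul_eq_one] at this
        exact this
      calc z * d = (z * d * z⁻¹) * z := by group
        _ = d * z := by rw [← h13]
    have hzin : z ∈ D := hcent z hzD
    obtain ⟨k, hk⟩ := hD2 ⟨z, hzin⟩
    exact odd_two hm hzm (by simpa using congrArg Subtype.val hk)
  have hle : φ.ker ⊓ ψ.ker ≤ D := hmax _ hn h2g
  exact Subgroup.finiteIndex_of_le hle

end Pool.Agent.Helper210_Rae
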