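import Pool.Agent.Helper210_Rae.B

set_option autoImplicit false

/-! The action on a chief factor without fixed vectors (end of section 6). -/

open scoped TensorProduct

namespace Pool.Agent.Helper210_Rae

open Pool.Agent.TH62.PL Pool.Agent.Helper867_Rae

section
variable {X : Type} [Group X]

/-- conjugation on a normal subgroup -/
def conjN {M : Subgroup X} (hM : M.Normal) (x : X) : M →* M where
  toFun m := ⟨x * m * x⁻¹, hM.conj_mem m m.2 x⟩
  map_one' := Subtype.ext (by simp)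
  map_mul' a b := Subtype.ext (by simp [mul_assoc])

theorem conjN_le {M N : Subgroup X} (hM : M.Normal) (hN : N.Normal) (x : X) :
    N.subgroupOf M ≤ (N.subgroupOf M).comap (conjN hM x) := by
  intro y hy
  rw [Subgroup.mem_comap, Subgroup.mem_subgroupOf]
  exact hN.conj_mem y hy x

/-- the action of `X` on the section `M / N` by additive maps -/
def secEnd {M N : Subgroup X} [(N.subgroupOf M).Normal]
    (hab : ∀ x ∈ M, ∀ y ∈ M, x * y * x⁻¹ * y⁻¹ ∈ N) (hM : M.Normal) (hN : N.Normal) :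
    letI := secGroup M N hab
    X →* AddMonoid.End (Additive (M ⧸ N.subgroupOf M)) :=
  letI := secGroup M N hab
  { toFun := fun x => MonoidHom.toAdditive
      (QuotientGroup.map (N.subgroupOf M) (N.subgroupOf M) (conjN hM x) (conjN_le hM hN x))
    map_one' := by
      apply AddMonoidHom.ext
      intro v
      obtain ⟨v, rfl⟩ := Additive.ofMul.surjective v
      obtain ⟨v, rfl⟩ := QuotientGroup.mk_surjective v
      change Additive.ofMul ((conjN hM 1 v : M) : M ⧸ N.subgroupOf M) =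
        Additive.ofMul (v : M ⧸ N.subgroupOf M)
      congr 2
      apply Subtype.ext
      simp [conjN]
    map_mul' := by
      intro x y
      apply AddMonoidHom.ext
      intro v
      obtain ⟨v, rfl⟩ := Additive.ofMul.surjective v
      obtain ⟨v, rfl⟩ := QuotientGroup.mk_surjective v
      change Additive.ofMul ((conjN hM (x * y) v : M) : M ⧸ N.subgroupOf M) =
        Additive.ofMul ((conjN hM x (conjN hM y v) : M) : M ⧸ N.subgroupOf M)
      congr 2
      apply Subtype.ext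
      simp [conjN, mul_assoc] }

/-- fixed vectors in the section -/
theorem secEnd_fix {M N : Subgroup X} [hn : (N.subgroupOf M).Normal]
    (hab : ∀ x ∈ M, ∀ y ∈ M, x * y * x⁻¹ * y⁻¹ ∈ N) (hM : M.Normal) (hN : N.Normal)
    (hNM : N ≤ M) (x : X) (m : M) :
    letI := secGroup M N hab
    secEnd hab hM hN x (Additive.ofMul (m : M ⧸ N.subgroupOf M)) =
      Additive.ofMul (m : M ⧸ N.subgroupOf M) ↔ x * m * x⁻¹ * (m : X)⁻¹ ∈ N := by
  letI := secGroup M N hab
  change Additive.ofMul ((conjN hM x m : M) : M ⧸ N.subgroupOf M) = _ ↔ _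
  rw [Additive.ofMul.injective.eq_iff, eq_comm, QuotientGroup.eq, Subgroup.mem_subgroupOf]
  have e : ((m⁻¹ * conjN hM x m : M) : X) = (m : X)⁻¹ * (x * m * x⁻¹) := rfl
  rw [e]
  constructor
  · intro h
    have h2 := hN.conj_mem _ h m
    have e2 : (m : X) * ((m : X)⁻¹ * (x * m * x⁻¹)) * (m : X)⁻¹ = x * m * x⁻¹ * (m : X)⁻¹ := by
      group
    rwa [e2] at h2
  · intro h
    have h2 := hN.conj_mem _ h (m : X)⁻¹
    have e2 : (m : X)⁻¹ * (x * m * x⁻¹ * (m : X)⁻¹) * ((m : X)⁻¹)⁻¹ =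
        (m : X)⁻¹ * (x * m * x⁻¹) := by group
    rwa [e2] at h2

end

theorem toLin (q : ℕ) (X V0 : Type) [Group X] [AddCommGroup V0] [Module (ZMod q) V0]
    (τ : X →* AddMonoid.End V0) :
    ∃ ρ0 : X →* Module.End (ZMod q) V0, ∀ x v, ρ0 x v = τ x v := by
  refine ⟨{ toFun := fun x => AddMonoidHom.toZModLinearMap q (τ x : V0 →+ V0)
            map_one' := ?_
            map_mul' := ?_ }, ?_⟩
  · apply LinearMap.ext
    intro v
    have h : τ 1 v = v := by rw [map_one]; rfl
    exact h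
  · intro x y
    apply LinearMap.ext
    intro v
    have h : τ (x * y) v = τ x (τ y v) := by rw [map_mul]; rfl
    exact h
  · intro x v
    rfl

/-- base change to the algebraic closure -/
theorem core (p l d : ℕ) [hp : Fact p.Prime]
    (hC : ∀ (q : ℕ) [Fact q.Prime] (k X V : Type) [Field k] [IsAlgClosed k] [CharP k q] [Group X]
      [Finite X] [AddCommGroup V] [Module k V] [FiniteDimensional k V]
      (ρ : X →* Module.End k V) (P : Subgroup X), p ≠ q →
      Group.IsSolvable X → Function.Injective ρ →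
      (∀ N : Subgroup X, N.Normal → IsPGroup q N → N = ⊥) → UQ p P → Nat.card P ≤ p ^ (l + 1) →
      (∀ v : V, (∀ x ∈ P, ρ x v = v) → v = 0) → LM p d (⊥ : Subgroup X))
    (X : Type) [Group X] [Finite X] (hX : Group.IsSolvable X) (q : ℕ) [hq : Fact q.Prime]
    (V0 : Type) [AddCommGroup V0] [Finite V0] [Module (ZMod q) V0]
    (ρ0 : X →* Module.End (ZMod q) V0) (P : Subgroup X) (hP : UQ p P)
    (hcard : Nat.card P ≤ p ^ (l + 1)) (hqp : q ≠ p)
    (hN : ∀ N : Subgroup (X ⧸ ρ0.ker), N.Normal → IsPGroup q N → N = ⊥)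
    (hfix : ∀ v : V0, (∀ s ∈ P, ρ0 s v = v) → v = 0) : LM p d ρ0.ker := by
  classical
  have hbc : Function.Injective (Module.End.baseChangeHom (ZMod q) (AlgebraicClosure (ZMod q)) V0) :=
    LinearMap.baseChangeHom_injective (ZMod q) V0 (AlgebraicClosure (ZMod q))
  let ρ' : X ⧸ ρ0.ker →* Module.End (AlgebraicClosure (ZMod q))
      (AlgebraicClosure (ZMod q) ⊗[ZMod q] V0) :=
    (Module.End.baseChangeHom (ZMod q) (AlgebraicClosure (ZMod q)) V0 :
      Module.End (ZMod q) V0 →* Module.End (AlgebraicClosure (ZMod q))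
        (AlgebraicClosure (ZMod q) ⊗[ZMod q] V0)).comp (QuotientGroup.lift ρ0.ker ρ0 le_rfl)
  have hρ' : ∀ x : X, ρ' (QuotientGroup.mk' ρ0.ker x) =
      Module.End.baseChangeHom (ZMod q) (AlgebraicClosure (ZMod q)) V0 (ρ0 x) := fun _ => rfl
  have hmk : Function.Surjective (QuotientGroup.mk' ρ0.ker) := QuotientGroup.mk'_surjective ρ0.ker
  have hpcard : (Nat.card P : AlgebraicClosure (ZMod q)) ≠ 0 := by
    obtain ⟨n, hn⟩ := hP.1.exists_card_eq
    rw [hn]
    intro h0
    rw [CharP.cast_eq_zero_iff (AlgebraicClosure (ZMod q)) q] at h0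
    exact hqp ((Nat.prime_dvd_prime_iff_eq hq.out hp.out).1 (hq.out.dvd_of_dvd_pow h0))
  have key := hC q (AlgebraicClosure (ZMod q)) (X ⧸ ρ0.ker)
    (AlgebraicClosure (ZMod q) ⊗[ZMod q] V0) ρ' (P.map (QuotientGroup.mk' ρ0.ker))
    hqp.symm inferInstance ?_ hN (hP.map _ hmk) ?_ ?_
  · have h1 := key.comap (QuotientGroup.mk' ρ0.ker)
    rwa [MonoidHom.comap_bot, QuotientGroup.ker_mk'] at h1
  · rw [injective_iff_map_eq_one]
    intro a ha
    obtain ⟨x, rfl⟩ := hmk a
    rw [hρ'] at ha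
    have h1 : ρ0 x = 1 := hbc (by rw [ha, map_one])
    exact (QuotientGroup.eq_one_iff x).2 h1
  · refine le_trans ?_ hcard
    exact Nat.card_le_card_of_surjective _ ((QuotientGroup.mk' ρ0.ker).subgroupMap_surjective P)
  · -- no fixed vectors
    intro w hw
    let _ := Fintype.ofFinite P
    have hS0 : ∑ x : P, ρ0 x = 0 := by
      apply LinearMap.ext
      intro v
      rw [LinearMap.sum_apply, LinearMap.zero_apply]
      apply hfix
      intro s hs
      rw [map_sum]
      have h2 : ∀ x : P, ρ0 s (ρ0 (x : X) v) = ρ0 ((((⟨s, hs⟩ : P) * x : P)) : X) v := by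
        intro x
        rw [Subgroup.coe_mul, map_mul]; rfl
      simp_rw [h2]
      exact Equiv.sum_comp (Equiv.mulLeft (⟨s, hs⟩ : P)) (fun x : P => ρ0 (x : X) v)
    have h1 : ∑ x : P, ρ' (QuotientGroup.mk' ρ0.ker x) = 0 := by
      simp_rw [hρ']
      rw [← map_sum, hS0, map_zero]
    have h2 : ∑ x : P, ρ' (QuotientGroup.mk' ρ0.ker x) w =
        (Nat.card P : AlgebraicClosure (ZMod q)) • w := by
      have h3 : ∀ x : P, ρ' (QuotientGroup.mk' ρ0.ker x) w = w := fun x => hw _ ⟨x, x.2, rfl⟩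
      simp_rw [h3]
      rw [Finset.sum_const, Finset.card_univ, Nat.card_eq_fintype_card, Nat.cast_smul_eq_nsmul]
    have h3 : ∑ x : P, ρ' (QuotientGroup.mk' ρ0.ker x) w = 0 := by
      rw [← LinearMap.sum_apply, h1, LinearMap.zero_apply]
    rw [h3] at h2
    exact (smul_eq_zero.1 h2.symm).resolve_left hpcard

theorem exists_sec {X : Type} [Group X] [Finite X] {q : ℕ} [Fact q.Prime] {M N : Subgroup X}
    (hM : M.Normal) (hN : N.Normal) (hNM : N ≤ M)
    (hab : ∀ x ∈ M, ∀ y ∈ M, x * y * x⁻¹ * y⁻¹ ∈ N) (hpow : ∀ x ∈ M, x ^ q ∈ N) :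
    ∃ (V0 : Type) (_ : AddCommGroup V0) (_ : Finite V0) (_ : Module (ZMod q) V0)
      (ρ0 : X →* Module.End (ZMod q) V0) (mk : M → V0), Function.Surjective mk ∧
      (∀ m, mk m = 0 ↔ (m : X) ∈ N) ∧
      (∀ x m, ρ0 x (mk m) = mk m ↔ x * m * x⁻¹ * (m : X)⁻¹ ∈ N) := by
  have hn : (N.subgroupOf M).Normal := sec_normal hNM hab
  let _ := secGroup M N hab
  have hsurj : ∀ v : Additive (M ⧸ N.subgroupOf M),
      ∃ m : M, Additive.ofMul (m : M ⧸ N.subgroupOf M) = v := by
    intro v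
    obtain ⟨v, rfl⟩ := Additive.ofMul.surjective v
    obtain ⟨v, rfl⟩ := QuotientGroup.mk_surjective v
    exact ⟨v, rfl⟩
  have hz : ∀ m : M, Additive.ofMul (m : M ⧸ N.subgroupOf M) = 0 ↔ (m : X) ∈ N := by
    intro m
    change Additive.ofMul (m : M ⧸ N.subgroupOf M) = Additive.ofMul 1 ↔ _
    rw [Additive.ofMul.injective.eq_iff, QuotientGroup.eq_one_iff, Subgroup.mem_subgroupOf]
  have hqV : ∀ v : Additive (M ⧸ N.subgroupOf M), q • v = 0 := by
    intro v
    obtain ⟨m, rfl⟩ := hsurj v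
    rw [← ofMul_pow, ← QuotientGroup.mk_pow, hz]
    exact hpow m m.2
  let _ : Module (ZMod q) (Additive (M ⧸ N.subgroupOf M)) := AddCommGroup.zmodModule hqV
  obtain ⟨ρ0, hρ0⟩ := toLin q X (Additive (M ⧸ N.subgroupOf M)) (secEnd hab hM hN)
  refine ⟨Additive (M ⧸ N.subgroupOf M), inferInstance,
    (inferInstance : Finite (M ⧸ N.subgroupOf M)), inferInstance, ρ0,
    fun m => Additive.ofMul (m : M ⧸ N.subgroupOf M), hsurj, hz, fun x m => ?_⟩
  rw [hρ0]
  exact secEnd_fix hab hM hN hNM x m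

theorem v : S_V := by
  intro p l d hp hC X _ _ hX q P L₁ L₂ W hP hcard hq hqp hL₁ hL₂ hle hne hchief hab hpow hfix hW
  classical
  have hqf : Fact q.Prime := ⟨hq⟩
  obtain ⟨V0, i1, i2, i3, ρ0, mk, hsurj, hz, hτ⟩ := exists_sec hL₁ hL₂ hle hab hpow
  have hmemK : ∀ x, x ∈ ρ0.ker ↔ ∀ v, ρ0 x v = v := by
    intro x
    rw [MonoidHom.mem_ker]
    constructor
    · intro h v
      rw [h]; rfl
    · intro h
      exact LinearMap.ext fun v => h v
  have hmk : Function.Surjective (QuotientGroup.mk' ρ0.ker) := QuotientGroup.mk'_surjective ρ0.ker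
  have key := core p l d hC X hX q V0 ρ0 P hP hcard hqp ?_ ?_
  · refine key.mono ?_
    intro x hx
    apply hW
    intro m hm
    exact (hτ x ⟨m, hm⟩).1 ((hmemK x).1 hx _)
  · -- no normal `q`-subgroups
    intro N hN hNq
    -- fixed points
    let L' : Subgroup X :=
      { carrier := {v | v ∈ L₁ ∧ ∀ n : X, QuotientGroup.mk' ρ0.ker n ∈ N → n * v * n⁻¹ * v⁻¹ ∈ L₂}
        one_mem' := ⟨L₁.one_mem, fun n _ => by simp⟩
        mul_mem' := by
          rintro a b ⟨ha, ha'⟩ ⟨hb, hb'⟩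
          refine ⟨L₁.mul_mem ha hb, fun n hn => ?_⟩
          have h1 := ha' n hn
          have h2 := hL₂.conj_mem _ (hb' n hn) a
          have e : n * (a * b) * n⁻¹ * (a * b)⁻¹ =
              (n * a * n⁻¹ * a⁻¹) * (a * (n * b * n⁻¹ * b⁻¹) * a⁻¹) := by group
          rw [e]
          exact L₂.mul_mem h1 h2
        inv_mem' := by
          rintro a ⟨ha, ha'⟩
          refine ⟨L₁.inv_mem ha, fun n hn => ?_⟩
          have h1 := hL₂.conj_mem _ (L₂.inv_mem (ha' n hn)) a⁻¹
          have e : n * a⁻¹ * n⁻¹ * a⁻¹⁻¹ =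
              a⁻¹ * (a * (n * a⁻¹ * n⁻¹)) * a⁻¹⁻¹ := by group
          have e2 : a * (n * a⁻¹ * n⁻¹) = (n * a * n⁻¹ * a⁻¹)⁻¹ := by group
          rw [e, e2]
          exact h1 }
    have hL'n : L'.Normal := by
      refine ⟨fun v hv g => ⟨hL₁.conj_mem v hv.1 g, fun n hn => ?_⟩⟩
      have h1 : QuotientGroup.mk' ρ0.ker (g⁻¹ * n * g) ∈ N := by
        have := hN.conj_mem _ hn (QuotientGroup.mk' ρ0.ker g⁻¹)
        rw [map_mul, map_mul]
        rwa [map_inv, inv_inv, ← map_inv] at this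
      have h2 := hL₂.conj_mem _ (hv.2 _ h1) g
      have e : g * (g⁻¹ * n * g * v * (g⁻¹ * n * g)⁻¹ * v⁻¹) * g⁻¹ =
          n * (g * v * g⁻¹) * n⁻¹ * (g * v * g⁻¹)⁻¹ := by group
      rwa [e] at h2
    have hL'1 : L' ≤ L₁ := fun v hv => hv.1
    have hL'2 : L₂ ≤ L' := by
      intro v hv
      refine ⟨hle hv, fun n _ => ?_⟩
      exact L₂.mul_mem (hL₂.conj_mem v hv n) (L₂.inv_mem hv)
    have hL'3 : L' ≠ L₂ := by
      intro he
      -- `N` acts on `V0`
      let σ : X ⧸ ρ0.ker →* Module.End (ZMod q) V0 := QuotientGroup.lift ρ0.ker ρ0 le_rfl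
      let _ : MulAction N V0 :=
        { smul := fun n v => σ (n : X ⧸ ρ0.ker) v
          one_smul := by
            intro v
            change σ ((1 : N) : X ⧸ ρ0.ker) v = v
            rw [Subgroup.coe_one, map_one]; rfl
          mul_smul := by
            intro a b v
            change σ ((a * b : N) : X ⧸ ρ0.ker) v = σ a (σ b v)
            rw [Subgroup.coe_mul, map_mul]; rfl }
      have hcardV : q ∣ Nat.card V0 := by
        have hnt : Nontrivial V0 := by
          obtain ⟨v, hv, hv'⟩ := SetLike.exists_of_lt (lt_of_le_of_ne hle hne)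
          refine ⟨⟨mk ⟨v, hv⟩, 0, ?_⟩⟩
          intro h0
          exact hv' ((hz _).1 h0)
        obtain ⟨v, hv⟩ := exists_ne (0 : V0)
        have hqV : ∀ v : V0, q • v = 0 := fun v => by
          rw [← Nat.cast_smul_eq_nsmul (ZMod q), CharP.cast_eq_zero, zero_smul]
        have h1 : addOrderOf v ∣ q := addOrderOf_dvd_of_nsmul_eq_zero (hqV v)
        rcases (Nat.dvd_prime hq).1 h1 with h2 | h2
        · exact absurd (AddMonoid.addOrderOf_eq_one_iff.1 h2) hv
        · rw [← h2]; exact addOrderOf_dvd_natCard v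
      obtain ⟨v, hv, hv'⟩ := hNq.exists_fixed_point_of_prime_dvd_card_of_fixed_point V0 hcardV
        (a := 0) (by intro n; exact map_zero _)
      obtain ⟨m, rfl⟩ := hsurj v
      have h1 : (m : X) ∈ L' := by
        refine ⟨m.2, fun n hn => ?_⟩
        rw [← hτ]
        exact hv ⟨_, hn⟩
      rw [he] at h1
      exact hv' ((hz m).2 h1).symm
    have hL'4 : L' = L₁ := (hchief L' hL'n hL'2 hL'1).resolve_right hL'3
    rw [eq_bot_iff]
    intro a ha
    obtain ⟨x, rfl⟩ := hmk a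
    rw [Subgroup.mem_bot]
    refine (QuotientGroup.eq_one_iff x).2 ?_
    rw [hmemK]
    intro v
    obtain ⟨m, rfl⟩ := hsurj v
    rw [hτ]
    have h1 : (m : X) ∈ L' := by rw [hL'4]; exact m.2
    exact h1.2 x ha
  · intro v hv
    obtain ⟨m, rfl⟩ := hsurj v
    rw [hz]
    refine hfix m m.2 fun s hs => ?_
    rw [← hτ]
    exact hv s hs

end Pool.Agent.Helper210_Rae
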